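import Pool.Agent.Y105.RS.StmC

/-! The number of cycles (job RSW-NC of helper105). -/

set_option autoImplicit false

open Finset Equiv

namespace Pool.Agent.Y876.RS

open Pool.Agent.Y105.RS

section
variable {V : Type} [Fintype V] [DecidableEq V]

/-- the swapped permutation, away from the two points -/
theorem sw_apply_of_ne {g : Perm V} {a b x : V} (h1 : g x ≠ a) (h2 : g x ≠ b) :
    (swap a b * g) x = g x := by
  rw [Perm.mul_apply, swap_apply_of_ne_of_ne h1 h2]

/-- the orbit of `x` stays the same until it meets `a` or `b` -/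
theorem sw_pow {g : Perm V} {a b x : V} {n : ℕ}
    (h : ∀ j, 1 ≤ j → j ≤ n → (g ^ j) x ≠ a ∧ (g ^ j) x ≠ b) :
    ∀ j ≤ n, ((swap a b * g) ^ j) x = (g ^ j) x := by
  intro j
  induction j with
  | zero => intro _; rfl
  | succ j ih =>
    intro hj
    rw [pow_succ', Perm.mul_apply, ih (by omega)]
    have h1 := h (j + 1) (by omega) hj
    rw [pow_succ', Perm.mul_apply] at h1
    rw [sw_apply_of_ne h1.1 h1.2, pow_succ', Perm.mul_apply]

/-- two cycles are joined -/
theorem join {g : Perm V} {a b : V} (hs : ¬ g.SameCycle a b) :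
    (swap a b * g).SameCycle a b := by
  classical
  have hex : ∃ n : ℕ, 1 ≤ n ∧ (g ^ n) b = b :=
    ⟨orderOf g, orderOf_pos g, by rw [pow_orderOf_eq_one]; rfl⟩
  obtain ⟨hn1, hn2⟩ := Nat.find_spec hex
  set n := Nat.find hex with hn
  have hmin : ∀ j, 1 ≤ j → j < n → (g ^ j) b ≠ b := fun j h1 h2 h3 =>
    Nat.find_min hex h2 ⟨h1, h3⟩
  have hna : ∀ j : ℕ, (g ^ j) b ≠ a := fun j h => hs (Perm.SameCycle.symm ⟨j, by simpa using h⟩)
  have h1 := sw_pow (g := g) (a := a) (b := b) (x := b) (n := n - 1) (fun j h1 h2 =>
    ⟨hna j, hmin j h1 (by omega)⟩) (n - 1) le_rfl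
  refine Perm.SameCycle.symm ⟨n, ?_⟩
  have h2 : n = (n - 1) + 1 := by omega
  rw [zpow_natCast]
  conv_lhs => rw [h2]
  rw [pow_succ', Perm.mul_apply, h1, Perm.mul_apply, ← Perm.mul_apply g, ← pow_succ', ← h2, hn2,
    swap_apply_right]

/-- a cycle is cut -/
theorem cut {g : Perm V} {a b : V} (hab : a ≠ b) (hs : g.SameCycle a b) :
    ¬ (swap a b * g).SameCycle a b := by
  classical
  obtain ⟨m, hm⟩ := hs.exists_nat_pow_eq
  have hex : ∃ n : ℕ, 1 ≤ n ∧ (g ^ n) a = b := by
    refine ⟨m, ?_, hm⟩
    rcases Nat.eq_zero_or_pos m with h | h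
    · rw [h] at hm
      exact absurd hm hab
    · exact h
  obtain ⟨hn1, hn2⟩ := Nat.find_spec hex
  set n := Nat.find hex with hn
  have hmin : ∀ j, 1 ≤ j → j < n → (g ^ j) a ≠ b := fun j h1 h2 h3 =>
    Nat.find_min hex h2 ⟨h1, h3⟩
  have hna : ∀ j, 1 ≤ j → j < n → (g ^ j) a ≠ a := by
    intro j h1 h2 h3
    refine hmin (n - j) (by omega) (by omega) ?_
    have h4 : n = (n - j) + j := by omega
    rw [← hn2]
    conv_rhs => rw [h4]
    rw [pow_add, Perm.mul_apply, h3]
  have h1 := sw_pow (g := g) (a := a) (b := b) (x := a) (n := n - 1) (fun j h1 h2 =>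
    ⟨hna j h1 (by omega), hmin j h1 (by omega)⟩)
  have hret : ((swap a b * g) ^ n) a = a := by
    have h2 : n = (n - 1) + 1 := by omega
    conv_lhs => rw [h2]
    rw [pow_succ', Perm.mul_apply, h1 (n - 1) le_rfl, Perm.mul_apply, ← Perm.mul_apply g,
      ← pow_succ', ← h2, hn2, swap_apply_right]
  intro h
  obtain ⟨k, hk⟩ := h.exists_nat_pow_eq
  have hper : ∀ q : ℕ, (((swap a b * g) ^ n) ^ q) a = a := by
    intro q
    induction q with
    | zero => rfl
    | succ q ih => rw [pow_succ, Perm.mul_apply, hret, ih]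
  have h2 : ((swap a b * g) ^ (k % n)) a = b := by
    refine Eq.trans ?_ hk
    conv_rhs => rw [← Nat.mod_add_div k n]
    rw [pow_add, Perm.mul_apply, pow_mul, hper]
  have h3 : k % n < n := Nat.mod_lt _ (by omega)
  rw [h1 _ (by omega)] at h2
  rcases Nat.eq_zero_or_pos (k % n) with h4 | h4
  · rw [h4] at h2
    exact hab h2
  · exact hmin _ h4 h3 h2

/-- the relation of the join contains the relation of the two cycles -/
theorem same_of {g : Perm V} {a b : V} (hs : ¬ g.SameCycle a b) {x y : V}
    (h : g.SameCycle x y) : (swap a b * g).SameCycle x y := by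
  have hj := join hs
  have h1 : ∀ x, (swap a b * g).SameCycle x (g x) := by
    intro x
    by_cases ha : g x = a
    · have h2 : (swap a b * g) x = b := by rw [Perm.mul_apply, ha, swap_apply_left]
      rw [ha]
      exact (Perm.sameCycle_apply_left.1 (by rw [h2]; exact hj.symm))
    · by_cases hb : g x = b
      · have h2 : (swap a b * g) x = a := by rw [Perm.mul_apply, hb, swap_apply_right]
        rw [hb]
        exact (Perm.sameCycle_apply_left.1 (by rw [h2]; exact hj))
      · have h2 := sw_apply_of_ne ha hb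
        rw [← h2]
        exact Perm.sameCycle_apply_right.2 (Perm.SameCycle.refl _ _)
  obtain ⟨m, hm⟩ := h.exists_nat_pow_eq
  rw [← hm]
  clear hm
  induction m with
  | zero => exact Perm.SameCycle.refl _ _
  | succ m ih =>
    rw [pow_succ', Perm.mul_apply]
    exact ih.trans (h1 _)

/-- the converse -/
theorem of_same {g : Perm V} {a b : V} {x y : V} (h : (swap a b * g).SameCycle x y) :
    g.SameCycle x y ∨ ((g.SameCycle a x ∨ g.SameCycle b x) ∧
      (g.SameCycle a y ∨ g.SameCycle b y)) := by
  have h1 : ∀ x, g.SameCycle x ((swap a b * g) x) ∨ ((g.SameCycle a x ∨ g.SameCycle b x) ∧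
      (g.SameCycle a ((swap a b * g) x) ∨ g.SameCycle b ((swap a b * g) x))) := by
    intro x
    by_cases ha : g x = a
    · right
      have h2 : (swap a b * g) x = b := by rw [Perm.mul_apply, ha, swap_apply_left]
      rw [h2]
      refine ⟨Or.inl ?_, Or.inr (Perm.SameCycle.refl _ _)⟩
      rw [← ha]
      exact Perm.sameCycle_apply_left.2 (Perm.SameCycle.refl _ _)
    · by_cases hb : g x = b
      · right
        have h2 : (swap a b * g) x = a := by rw [Perm.mul_apply, hb, swap_apply_right]
        rw [h2]
        refine ⟨Or.inr ?_, Or.inl (Perm.SameCycle.refl _ _)⟩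
        rw [← hb]
        exact Perm.sameCycle_apply_left.2 (Perm.SameCycle.refl _ _)
      · left
        rw [sw_apply_of_ne ha hb]
        exact Perm.sameCycle_apply_right.2 (Perm.SameCycle.refl _ _)
  obtain ⟨m, hm⟩ := h.exists_nat_pow_eq
  rw [← hm]
  clear hm h y
  induction m with
  | zero => exact Or.inl (Perm.SameCycle.refl _ _)
  | succ m ih =>
    rw [pow_succ', Perm.mul_apply]
    set u := ((swap a b * g) ^ m) x with hu
    rcases ih with ih | ⟨ih1, ih2⟩
    · rcases h1 u with h2 | ⟨h2, h3⟩
      · exact Or.inl (ih.trans h2)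
      · refine Or.inr ⟨?_, h3⟩
        rcases h2 with h2 | h2
        · exact Or.inl (h2.trans ih.symm)
        · exact Or.inr (h2.trans ih.symm)
    · rcases h1 u with h2 | ⟨h2, h3⟩
      · refine Or.inr ⟨ih1, ?_⟩
        rcases ih2 with ih2 | ih2
        · exact Or.inl (ih2.trans h2)
        · exact Or.inr (ih2.trans h2)
      · exact Or.inr ⟨ih1, h3⟩

/-- joining two cycles decreases the number of the cycles by one -/
theorem nc_join {g : Perm V} {a b : V} (hs : ¬ g.SameCycle a b) :
    nc (swap a b * g) + 1 = nc g := by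
  classical
  unfold nc
  set sg := Perm.SameCycle.setoid g with hsg
  set sh := Perm.SameCycle.setoid (swap a b * g) with hsh
  let qb : Quotient sg := Quotient.mk sg b
  let φ : Quotient sg → Quotient sh := Quotient.map' id (fun x y h => same_of hs h)
  have hφ : ∀ x, φ (Quotient.mk sg x) = Quotient.mk sh x := fun x => rfl
  have hbij : Function.Bijective (fun q : {q : Quotient sg // q ≠ qb} => φ q.1) := by
    constructor
    · rintro ⟨q, hq⟩ ⟨q', hq'⟩ h
      induction q using Quotient.inductionOn with
      | h x =>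
        induction q' using Quotient.inductionOn with
        | h y =>
          have hx : ¬ g.SameCycle x b := fun h => hq (Quotient.sound h)
          have hy : ¬ g.SameCycle y b := fun h => hq' (Quotient.sound h)
          have h1 : (swap a b * g).SameCycle x y := Quotient.exact h
          refine Subtype.ext (Quotient.sound ?_)
          rcases of_same h1 with h2 | ⟨h2, h3⟩
          · exact h2
          · have h4 : g.SameCycle a x := h2.resolve_right fun h => hx h.symm
            have h5 : g.SameCycle a y := h3.resolve_right fun h => hy h.symm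
            exact h4.symm.trans h5
    · intro q
      induction q using Quotient.inductionOn with
      | h x =>
        by_cases hx : g.SameCycle x b
        · refine ⟨⟨Quotient.mk sg a, fun h => hs (Quotient.exact h)⟩, ?_⟩
          refine Quotient.sound ?_
          exact (join hs).trans (same_of hs hx).symm
        · exact ⟨⟨Quotient.mk sg x, fun h => hx (Quotient.exact h)⟩, rfl⟩
  rw [← Nat.card_congr (Equiv.ofBijective _ hbij), ← Finite.card_option]
  exact Nat.card_congr (Equiv.optionSubtypeNe qb)

/-- the induced permutation has the same cycles -/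
theorem ind_same {g : Perm V} {k : ℕ} {z : Fin k → V} {π : Perm (Fin k)}
    (hz : Function.Injective z) (hI : Ind g z π) (i j : Fin k) :
    g.SameCycle (z i) (z j) ↔ π.SameCycle i j := by
  constructor
  · intro h
    obtain ⟨n, hn⟩ := h.exists_nat_pow_eq
    clear h
    induction n using Nat.strong_induction_on generalizing i with
    | _ n ih =>
      rcases Nat.eq_zero_or_pos n with h0 | h0
      · rw [h0] at hn
        have : i = j := hz hn
        rw [this]
      · obtain ⟨n1, h1, h2, h3⟩ := hI i
        have h4 : n1 ≤ n := by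
          by_contra h5
          exact h3 n h0 (by omega) ⟨j, hn.symm⟩
        have h5 : (g ^ (n - n1)) (z (π i)) = z j := by
          rw [← h2, ← Perm.mul_apply, ← pow_add]
          rw [show n - n1 + n1 = n by omega]
          exact hn
        exact Perm.sameCycle_apply_left.1 (ih (n - n1) (by omega) (π i) h5)
  · intro h
    obtain ⟨m, hm⟩ := h.exists_nat_pow_eq
    rw [← hm]
    clear hm h
    induction m with
    | zero => exact Perm.SameCycle.refl _ _
    | succ m ih =>
      rw [pow_succ', Perm.mul_apply]
      refine ih.trans ?_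
      obtain ⟨n, -, h2, -⟩ := hI ((π ^ m) i)
      rw [← h2]
      exact Perm.sameCycle_pow_right.2 (Perm.SameCycle.refl _ _)

end

/-- **RSW-NC** -/
theorem nc_all : S_NC := by
  refine ⟨?_, ?_, ?_, ?_⟩
  · intro V _ _ g
    unfold nc
    rw [← Nat.card_eq_fintype_card]
    exact Nat.card_le_card_of_surjective _ Quotient.mk_surjective
  · intro V _ _ g A
    unfold nc
    refine Nat.card_congr (Quotient.congr A fun x y => ?_)
    have h1 : (A⁻¹ * g * A⁻¹⁻¹).SameCycle x y ↔ g.SameCycle (A⁻¹⁻¹ x) (A⁻¹⁻¹ y) :=
      Perm.sameCycle_conj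
    rw [inv_inv] at h1
    exact h1
  · intro V _ _ g a b hab
    have hsw : swap a b * (swap a b * g) = g := by rw [← mul_assoc, swap_mul_self, one_mul]
    refine ⟨⟨fun h1 h2 => cut hab h2 h1, join⟩, nc_join, fun h => ?_⟩
    have h1 := nc_join (g := swap a b * g) (a := a) (b := b) (cut hab h)
    rw [hsw] at h1
    exact h1.symm
  · intro V _ _ g k z π hz hI i j
    exact ind_same hz hI i j

end Pool.Agent.Y876.RS
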